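import Pool.Agent.W555.GL.Stm

/-! GL-SP: the special part of project GL. -/

set_option autoImplicit false

namespace Pool.Agent.W828.GL

open Cardinal
open Pool.Agent.W555.GL

variable {L : Type} [CompleteLattice L] {rk : L → ℕ} {r : ℕ}

theorem rk_mono (h : RkData L rk r) {x y : L} (hxy : x ≤ y) : rk x ≤ rk y := by
  rcases hxy.lt_or_eq with h1 | h1
  · exact (h.mono x y h1).le
  · rw [h1]

theorem rk_atom (h : RkData L rk r) {a : L} (ha : IsAtom a) : rk a = 1 := by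
  have h1 := h.atom ⊥ a ha (fun h2 => ha.1 (le_bot_iff.mp h2))
  rw [bot_sup_eq, h.bot] at h1
  omega

theorem rk_cov (h : RkData L rk r) {x y : L} (hxy : x ⋖ y) : rk y = rk x + 1 := by
  obtain ⟨a, ha, hay, hax⟩ := h.gen x y hxy.1
  have h1 := h.atom x a ha hax
  have h2 : x < x ⊔ a := lt_of_le_of_ne le_sup_left (fun h3 => hax (by rw [h3]; exact le_sup_right))
  have h3 : x ⊔ a = y := by
    rcases (sup_le hxy.1.le hay).lt_or_eq with h4 | h4
    · exact absurd h4 (hxy.2 h2)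
    · exact h4
  rw [← h3, h1]

/-- The first kind of flag. -/
theorem flag1 (hp : StPair) (h : RkData L rk r) {l Z : L} (hl : rk l = 2) (hc : Compl rk r l Z)
    {e : L} (he : e ∈ pts l) {W : ℕ → L} (hW : IsTower rk (rk Z) W) (hWZ : W (rk Z) = Z) :
    IsFlag rk 2 r {x | ∃ i, 1 ≤ i ∧ i ≤ rk Z ∧ x = e ⊔ W i} ∧
    {x | ∃ i, 1 ≤ i ∧ i ≤ rk Z ∧ x = e ⊔ W i} ⊆ special l Z ∧
    ∀ x ∈ {x | ∃ i, 1 ≤ i ∧ i ≤ rk Z ∧ x = e ⊔ W i}, x ⊓ l = e ∧
      ∃ i, 1 ≤ i ∧ i ≤ rk Z ∧ x ⊓ Z = W i := by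
  have hr : rk l + rk Z = r := hc.2
  have hle : ∀ i, i ≤ rk Z → W i ≤ Z := by
    intro i hi
    have := hW.2 i (rk Z) hi le_rfl
    rwa [hWZ] at this
  have hrk : ∀ i, i ≤ rk Z → rk (e ⊔ W i) = i + 1 := by
    intro i hi
    rw [(hp L rk r h l Z hc e (W i) he.2 (hle i hi)).1, rk_atom h he.1, hW.1 i hi]
    omega
  refine ⟨⟨?_, ?_, ?_⟩, ?_, ?_⟩
  · rintro x ⟨i, hi1, hi2, rfl⟩ y ⟨j, hj1, hj2, rfl⟩ hne
    rcases le_total i j with hij | hij
    · left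
      exact sup_le_sup_left (hW.2 i j hij hj2) e
    · right
      exact sup_le_sup_left (hW.2 j i hij hi2) e
  · rintro x ⟨i, hi1, hi2, rfl⟩
    rw [hrk i hi2]
    omega
  · intro i hi1 hi2
    refine ⟨e ⊔ W (i - 1), ⟨i - 1, by omega, by omega, rfl⟩, ?_⟩
    rw [hrk (i - 1) (by omega)]
    omega
  · rintro x ⟨i, hi1, hi2, rfl⟩
    exact ⟨W i, hle i hi2, Or.inr ⟨e, he, rfl⟩⟩
  · rintro x ⟨i, hi1, hi2, rfl⟩
    have h1 := hp L rk r h l Z hc e (W i) he.2 (hle i hi2)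
    exact ⟨h1.2.1, i, hi1, hi2, h1.2.2⟩

/-- The second kind of flag. -/
theorem flag2 (hp : StPair) (h : RkData L rk r) {l Z : L} (hl : rk l = 2) (hc : Compl rk r l Z)
    {e : L} (he : e ∈ pts l) {H : L} (hH : H ⋖ Z) {W : ℕ → L} (hW : IsTower rk (rk H) W)
    (hWH : W (rk H) = H) :
    IsFlag rk 2 r ({x | ∃ i, 1 ≤ i ∧ i ≤ rk H ∧ x = e ⊔ W i} ∪ {l ⊔ H}) ∧
    ({x | ∃ i, 1 ≤ i ∧ i ≤ rk H ∧ x = e ⊔ W i} ∪ {l ⊔ H}) ⊆ special l Z ∧
    ∀ x ∈ ({x | ∃ i, 1 ≤ i ∧ i ≤ rk H ∧ x = e ⊔ W i} ∪ {l ⊔ H}),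
      (x ⊓ l = e ∧ ∃ i, 1 ≤ i ∧ i ≤ rk H ∧ x ⊓ Z = W i) ∨ (x ⊓ l = l ∧ x ⊓ Z = H) := by
  have hr : rk l + rk Z = r := hc.2
  have hHZ : rk Z = rk H + 1 := rk_cov h hH
  have hle : ∀ i, i ≤ rk H → W i ≤ Z := by
    intro i hi
    have := hW.2 i (rk H) hi le_rfl
    rw [hWH] at this
    exact this.trans hH.1.le
  have hleH : ∀ i, i ≤ rk H → W i ≤ H := by
    intro i hi
    have := hW.2 i (rk H) hi le_rfl
    rwa [hWH] at this
  have hrk : ∀ i, i ≤ rk H → rk (e ⊔ W i) = i + 1 := by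
    intro i hi
    rw [(hp L rk r h l Z hc e (W i) he.2 (hle i hi)).1, rk_atom h he.1, hW.1 i hi]
    omega
  have hrk2 : rk (l ⊔ H) = rk H + 2 := by
    rw [(hp L rk r h l Z hc l H le_rfl hH.1.le).1, hl]
    omega
  refine ⟨⟨?_, ?_, ?_⟩, ?_, ?_⟩
  · rintro x (⟨i, hi1, hi2, rfl⟩ | hx) y (⟨j, hj1, hj2, rfl⟩ | hy) hne
    · rcases le_total i j with hij | hij
      · left
        exact sup_le_sup_left (hW.2 i j hij hj2) e
      · right
        exact sup_le_sup_left (hW.2 j i hij hi2) e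
    · left
      rw [Set.mem_singleton_iff.mp hy]
      exact sup_le_sup he.2 (hleH i hi2)
    · right
      rw [Set.mem_singleton_iff.mp hx]
      exact sup_le_sup he.2 (hleH j hj2)
    · exact absurd ((Set.mem_singleton_iff.mp hx).trans (Set.mem_singleton_iff.mp hy).symm) hne
  · rintro x (⟨i, hi1, hi2, rfl⟩ | hx)
    · rw [hrk i hi2]
      omega
    · rw [Set.mem_singleton_iff.mp hx, hrk2]
      omega
  · intro i hi1 hi2
    rcases Nat.lt_or_ge (rk H + 1) i with h1 | h1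
    · refine ⟨l ⊔ H, Or.inr rfl, ?_⟩
      rw [hrk2]
      omega
    · refine ⟨e ⊔ W (i - 1), Or.inl ⟨i - 1, by omega, by omega, rfl⟩, ?_⟩
      rw [hrk (i - 1) (by omega)]
      omega
  · rintro x (⟨i, hi1, hi2, rfl⟩ | hx)
    · exact ⟨W i, hle i hi2, Or.inr ⟨e, he, rfl⟩⟩
    · rw [Set.mem_singleton_iff.mp hx]
      exact ⟨H, hH.1.le, Or.inl rfl⟩
  · rintro x (⟨i, hi1, hi2, rfl⟩ | hx)
    · have h1 := hp L rk r h l Z hc e (W i) he.2 (hle i hi2)
      exact Or.inl ⟨h1.2.1, i, hi1, hi2, h1.2.2⟩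
    · rw [Set.mem_singleton_iff.mp hx]
      have h1 := hp L rk r h l Z hc l H le_rfl hH.1.le
      exact Or.inr ⟨h1.2.1, h1.2.2⟩

theorem sp (hp : StPair) (hta : StTowA) (hi : StInj) (h2 : StTwo) : StSp := by
  classical
  intro L _ rk r h l Z hl hc hinf hcard
  obtain ⟨f⟩ : Nonempty (pts Z ↪ pts l) := hcard
  obtain ⟨hh, hh1, hh2⟩ := hi L rk r h Z
  -- the injection, extended
  obtain ⟨E, hE1, hE2⟩ : ∃ E : L → L, (∀ z ∈ pts Z, E z ∈ pts l) ∧ Set.InjOn E (pts Z) := by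
    refine ⟨fun z => if hz : z ∈ pts Z then (f ⟨z, hz⟩ : L) else ⊥, ?_, ?_⟩
    · intro z hz
      simp only [hz, dif_pos]
      exact (f ⟨z, hz⟩).2
    · intro z hz w hw hzw
      simp only [hz, hw, dif_pos] at hzw
      have h3 := f.injective (Subtype.ext hzw)
      exact congrArg Subtype.val h3
  -- disjointness of pts l and pts Z
  have hdis : ∀ e, e ∈ pts l → e ∈ pts Z → False := by
    intro e he1 he2
    have h3 := (hp L rk r h l Z hc l ⊥ le_rfl bot_le).2.2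
    rw [sup_bot_eq] at h3
    have h4 : e ≤ l ⊓ Z := le_inf he1.2 he2.2
    rw [h3] at h4
    exact he1.1.1 (le_bot_iff.mp h4)
  -- the two towers
  have hT : ∀ z, z ∈ pts Z → ∃ W W' : ℕ → L, IsTower rk (rk Z) W ∧ IsTower rk (rk (hh z)) W' ∧
      W 1 = z ∧ W (rk Z) = Z ∧ W' (rk (hh z)) = hh z ∧
      ∀ i, 1 ≤ i → i ≤ rk (hh z) → W i ≠ W' i := by
    intro z hz
    exact h2 L rk r h Z z (hh z) hz.1 hz.2 (hh1 z hz).1 (hh1 z hz).2
  choose! W W' hW1 hW2 hW3 hW4 hW5 hW6 using hT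
  -- the fixed tower
  obtain ⟨V, hV1, -, hV2⟩ := hta L rk r h ⊥ Z bot_le
  -- the flags
  have hfl : ∀ e, e ∈ pts l ∪ pts Z → ∃ c : Set L,
      (IsFlag rk 2 r c ∧ (∀ x ∈ c, e ≤ x) ∧ c ⊆ special l Z) ∧
      (e ∈ pts Z → ∀ x ∈ c, x ⊓ l = E e ∧ ∃ i, 1 ≤ i ∧ i ≤ rk Z ∧ x ⊓ Z = W e i) ∧
      (∀ z, z ∈ pts Z → E z = e → ∀ x ∈ c,
        (x ⊓ l = e ∧ ∃ i, 1 ≤ i ∧ i ≤ rk (hh z) ∧ x ⊓ Z = W' z i) ∨
          (x ⊓ l = l ∧ x ⊓ Z = hh z)) ∧
      (e ∈ pts l → (∀ z, z ∈ pts Z → E z ≠ e) → ∀ x ∈ c, x ⊓ l = e) := by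
    intro e he
    by_cases heZ : e ∈ pts Z
    · obtain ⟨h3, h4, h5⟩ := flag1 hp h hl hc (hE1 e heZ) (hW1 e heZ) (hW4 e heZ)
      refine ⟨_, ⟨h3, ?_, h4⟩, fun _ => h5, ?_, ?_⟩
      · rintro x ⟨i, hi1, hi2, rfl⟩
        refine le_trans ?_ le_sup_right
        have h6 := (hW1 e heZ).2 1 i hi1 hi2
        rwa [hW3 e heZ] at h6
      · intro z hz hze
        exact absurd heZ (fun h6 => hdis e (hze ▸ hE1 z hz) h6)
      · intro h6
        exact absurd heZ (fun h7 => hdis e h6 h7)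
    · have hel : e ∈ pts l := he.resolve_right heZ
      by_cases hz : ∃ z, z ∈ pts Z ∧ E z = e
      · obtain ⟨z, hz1, hz2⟩ := hz
        obtain ⟨h3, h4, h5⟩ := flag2 hp h hl hc hel (hh1 z hz1).1 (hW2 z hz1) (hW5 z hz1)
        refine ⟨_, ⟨h3, ?_, h4⟩, fun h6 => absurd h6 heZ, ?_, ?_⟩
        · rintro x (⟨i, hi1, hi2, rfl⟩ | hx)
          · exact le_sup_left
          · rw [Set.mem_singleton_iff.mp hx]
            exact le_trans hel.2 le_sup_left
        · intro w hw1 hw2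
          have hwz : w = z := hE2 hw1 hz1 (hw2.trans hz2.symm)
          subst hwz
          exact h5
        · intro _ h6
          exact absurd hz2 (h6 z hz1)
      · push Not at hz
        obtain ⟨h3, h4, h5⟩ := flag1 hp h hl hc hel hV1 hV2
        refine ⟨_, ⟨h3, ?_, h4⟩, fun h6 => absurd h6 heZ, ?_, ?_⟩
        · rintro x ⟨i, hi1, hi2, rfl⟩
          exact le_sup_left
        · intro w hw1 hw2
          exact absurd hw2 (hz w hw1)
        · intro _ _ x hx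
          exact (h5 x hx).1
  choose! c hc1 hc2 hc3 hc4 using hfl
  refine ⟨c, hc1, ?_⟩
  have hlE : ∀ e, e ∈ pts l → l ≠ e := by
    intro e he hle
    have h3 := rk_atom h he.1
    rw [← hle, hl] at h3
    omega
  -- disjointness: l against l
  have hll : ∀ e ∈ pts l, ∀ e' ∈ pts l, e ≠ e' → ∀ x, x ∈ c e → x ∈ c e' → False := by
    intro e he e' he' hne x hx hx'
    by_cases hz : ∃ z, z ∈ pts Z ∧ E z = e
    · obtain ⟨z, hz1, hz2⟩ := hz
      have h3 := hc3 e (Or.inl he) z hz1 hz2 x hx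
      by_cases hz' : ∃ z, z ∈ pts Z ∧ E z = e'
      · obtain ⟨z', hz1', hz2'⟩ := hz'
        have h4 := hc3 e' (Or.inl he') z' hz1' hz2' x hx'
        rcases h3 with ⟨h3, -⟩ | ⟨h3, h3'⟩
        · rcases h4 with ⟨h4, -⟩ | ⟨h4, -⟩
          · exact hne (h3.symm.trans h4)
          · exact hlE e he (h4.symm.trans h3)
        · rcases h4 with ⟨h4, -⟩ | ⟨h4, h4'⟩
          · exact hlE e' he' (h3.symm.trans h4)
          · have h5 : z = z' := hh2 hz1 hz1' (h3'.symm.trans h4')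
            rw [h5, hz2'] at hz2
            exact hne hz2.symm
      · push Not at hz'
        have h4 := hc4 e' (Or.inl he') he' hz' x hx'
        rcases h3 with ⟨h3, -⟩ | ⟨h3, h3'⟩
        · exact hne (h3.symm.trans h4)
        · exact hlE e' he' (h3.symm.trans h4)
    · push Not at hz
      have h3 := hc4 e (Or.inl he) he hz x hx
      by_cases hz' : ∃ z, z ∈ pts Z ∧ E z = e'
      · obtain ⟨z', hz1', hz2'⟩ := hz'
        have h4 := hc3 e' (Or.inl he') z' hz1' hz2' x hx'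
        rcases h4 with ⟨h4, -⟩ | ⟨h4, -⟩
        · exact hne (h3.symm.trans h4)
        · exact hlE e he (h4.symm.trans h3)
      · push Not at hz'
        have h4 := hc4 e' (Or.inl he') he' hz' x hx'
        exact hne (h3.symm.trans h4)
  have hlZ : ∀ e ∈ pts l, ∀ z ∈ pts Z, ∀ x, x ∈ c e → x ∈ c z → False := by
    intro e he z hz x hx hx'
    obtain ⟨h3, i, hi1, hi2, hi3⟩ := hc2 z (Or.inr hz) hz x hx'
    by_cases hz' : ∃ z, z ∈ pts Z ∧ E z = e
    · obtain ⟨w, hw1, hw2⟩ := hz'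
      rcases hc3 e (Or.inl he) w hw1 hw2 x hx with ⟨h4, j, hj1, hj2, hj3⟩ | ⟨h4, -⟩
      · have h5 : w = z := hE2 hw1 hz (by rw [hw2, ← h4, h3])
        subst h5
        have hjZ : rk Z = rk (hh w) + 1 := rk_cov h (hh1 w hz).1
        have h6 : rk (W w i) = i := (hW1 w hz).1 i hi2
        have h7 : rk (W' w j) = j := (hW2 w hz).1 j hj2
        have h8 : W w i = W' w j := hi3.symm.trans hj3
        have h9 : i = j := by rw [← h6, h8, h7]
        subst h9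
        exact hW6 w hz i hj1 hj2 h8
      · exact hlE (E z) (hE1 z hz) (h4.symm.trans h3)
    · push Not at hz'
      have h4 := hc4 e (Or.inl he) he hz' x hx
      exact hz' z hz (h3.symm.trans h4)
  have hZZ : ∀ z ∈ pts Z, ∀ z' ∈ pts Z, z ≠ z' → ∀ x, x ∈ c z → x ∈ c z' → False := by
    intro z hz z' hz' hne x hx hx'
    have h3 := (hc2 z (Or.inr hz) hz x hx).1
    have h4 := (hc2 z' (Or.inr hz') hz' x hx').1
    exact hne (hE2 hz hz' (h3.symm.trans h4))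
  intro e he e' he' hne
  rw [Set.disjoint_left]
  intro x hx hx'
  rcases he with he | he
  · rcases he' with he' | he'
    · exact hll e he e' he' hne x hx hx'
    · exact hlZ e he e' he' x hx hx'
  · rcases he' with he' | he'
    · exact hlZ e' he' e he x hx' hx
    · exact hZZ e he e' he' hne x hx hx'

end Pool.Agent.W828.GL
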